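import Mathlib

/-!
# Maps from a space of covering dimension at most one through a graph
-/

set_option autoImplicit false

open Set Topology

namespace Pool.Agent.K3h75.OM

/-- `CoveringDimLE X n`: the Lebesgue covering dimension of `X` is at most `n`, i.e. every finite
open cover `𝒰` of `X` has a finite open refinement `𝒱` that covers `X` such that each point of `X`
lies in at most `n + 1` members of `𝒱`. -/
def CoveringDimLE (X : Type*) [TopologicalSpace X] (n : ℕ) : Prop :=
  ∀ 𝒰 : Set (Set X), 𝒰.Finite → (∀ U ∈ 𝒰, IsOpen U) → ⋃₀ 𝒰 = univ →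
    ∃ 𝒱 : Set (Set X), 𝒱.Finite ∧ (∀ V ∈ 𝒱, IsOpen V) ∧ ⋃₀ 𝒱 = univ ∧
      (∀ V ∈ 𝒱, ∃ U ∈ 𝒰, V ⊆ U) ∧ ∀ x : X, {V | V ∈ 𝒱 ∧ x ∈ V}.encard ≤ n + 1

variable {X : Type*} [TopologicalSpace X]

/-- fine covers of order two -/
theorem exists_fine [CompactSpace X] (hX : CoveringDimLE X 1) {Z : Type*} [PseudoMetricSpace Z]
    (g : X → Z) (hg : Continuous g) {e : ℝ} (he : 0 < e) :
    ∃ (m : ℕ) (V : Fin m → Set X), (∀ i, IsOpen (V i)) ∧ (∀ i, (V i).Nonempty) ∧
      (⋃ i, V i) = univ ∧ (∀ i, ∀ x ∈ V i, ∀ y ∈ V i, dist (g x) (g y) < e) ∧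
      ∀ x i j k, x ∈ V i → x ∈ V j → x ∈ V k → i = j ∨ i = k ∨ j = k := by
  classical
  set W : X → Set X := fun x => g ⁻¹' Metric.ball (g x) (e / 2) with hW
  have hWo : ∀ x, IsOpen (W x) := fun x => Metric.isOpen_ball.preimage hg
  obtain ⟨t, ht⟩ := CompactSpace.elim_nhds_subcover W (fun x => (hWo x).mem_nhds (by simp [hW, he]))
  obtain ⟨𝒱, hf, ho, hc, hr, hn⟩ := hX (W '' (t : Set X)) (t.finite_toSet.image W)
    (by rintro _ ⟨x, _, rfl⟩; exact hWo x)
    (by
      rw [sUnion_image]
      exact ht)
  set 𝒲 : Set (Set X) := {V ∈ 𝒱 | V.Nonempty} with h𝒲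
  have hf' : 𝒲.Finite := hf.subset (fun V hV => hV.1)
  have : Finite 𝒲 := hf'
  obtain ⟨m, ⟨φ⟩⟩ := Finite.exists_equiv_fin 𝒲
  refine ⟨m, fun i => (φ.symm i : Set X), fun i => ho _ (φ.symm i).2.1, fun i => (φ.symm i).2.2,
    ?_, ?_, ?_⟩
  · refine eq_univ_of_forall fun x => ?_
    have hx : x ∈ ⋃₀ 𝒱 := by rw [hc]; trivial
    obtain ⟨V, hV, hxV⟩ := hx
    refine mem_iUnion.2 ⟨φ ⟨V, hV, ⟨x, hxV⟩⟩, ?_⟩
    simpa using hxV
  · intro i x hx y hy
    obtain ⟨U, ⟨z, _, rfl⟩, hU⟩ := hr _ (φ.symm i).2.1
    have h1 : dist (g x) (g z) < e / 2 := hU hx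
    have h2 : dist (g y) (g z) < e / 2 := hU hy
    calc dist (g x) (g y) ≤ dist (g x) (g z) + dist (g z) (g y) := dist_triangle _ _ _
      _ < e := by rw [dist_comm (g z)]; linarith
  · intro x i j k hi hj hk
    by_contra hcon
    push Not at hcon
    obtain ⟨hij, hik, hjk⟩ := hcon
    have hsub : ({(φ.symm i : Set X), (φ.symm j : Set X), (φ.symm k : Set X)} : Set (Set X)) ⊆
        {V | V ∈ 𝒱 ∧ x ∈ V} := by
      rintro V (rfl | rfl | rfl)
      · exact ⟨(φ.symm i).2.1, hi⟩
      · exact ⟨(φ.symm j).2.1, hj⟩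
      · exact ⟨(φ.symm k).2.1, hk⟩
    have hinj : ∀ i j : Fin m, (φ.symm i : Set X) = (φ.symm j : Set X) → i = j := by
      intro i j hij
      exact φ.symm.injective (Subtype.ext hij)
    have h3 : ({(φ.symm i : Set X), (φ.symm j : Set X), (φ.symm k : Set X)} : Set (Set X)).encard
        = 3 := by
      rw [Set.encard_eq_three]
      exact ⟨_, _, _, fun h => hij (hinj _ _ h), fun h => hik (hinj _ _ h),
        fun h => hjk (hinj _ _ h), rfl⟩
    have h4 := (Set.encard_le_encard hsub).trans (hn x)
    rw [h3] at h4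
    norm_num at h4

/-- a map from `X` to a space `E` which is a composition of a map to a graph and a map of this
graph -/
theorem exists_map [CompactSpace X] [T2Space X] {m : ℕ} (V : Fin m → Set X)
    (hVo : ∀ i, IsOpen (V i)) (hVc : (⋃ i, V i) = univ)
    (hV2 : ∀ x i j k, x ∈ V i → x ∈ V j → x ∈ V k → i = j ∨ i = k ∨ j = k)
    {E : Type*} [TopologicalSpace E] (P : Fin m → E) (γ : Fin m → Fin m → ℝ → E)
    (hγ : ∀ k l, Continuous (γ k l)) (hγ0 : ∀ k l, γ k l 0 = P k) (hγ1 : ∀ k l, γ k l 1 = P l) :
    ∃ F : C(X, E), ∀ x, (∃ k, x ∈ V k ∧ F x = P k) ∨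
      ∃ k l, x ∈ V k ∧ x ∈ V l ∧ ∃ t : ℝ, 0 ≤ t ∧ t ≤ 1 ∧ F x = γ k l t := by
  classical
  obtain ⟨p, hp⟩ := PartitionOfUnity.exists_isSubordinate isClosed_univ V hVo hVc.ge
  have hsupp : ∀ i x, p i x ≠ 0 → x ∈ V i := by
    intro i x hx
    exact hp i (subset_tsupport _ hx)
  have hnn : ∀ i x, 0 ≤ p i x := fun i x => p.nonneg i x
  have hsum : ∀ x, ∑ i, p i x = 1 := by
    intro x
    rw [← p.sum_eq_one (mem_univ x), finsum_eq_sum_of_fintype]
  have hle : ∀ x (S : Finset (Fin m)), ∑ i ∈ S, p i x ≤ 1 := by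
    intro x S
    rw [← hsum x]
    exact Finset.sum_le_sum_of_subset_of_nonneg (Finset.subset_univ _) (fun i _ _ => hnn i x)
  have h2 : ∀ x i j, i ≠ j → p i x + p j x ≤ 1 := by
    intro x i j hij
    have := hle x {i, j}
    rwa [Finset.sum_pair hij] at this
  have h3 : ∀ x i j k, i ≠ j → i ≠ k → j ≠ k → p i x + p j x + p k x ≤ 1 := by
    intro x i j k hij hik hjk
    have := hle x {i, j, k}
    rw [Finset.sum_insert (by simp [hij, hik]), Finset.sum_pair hjk] at this
    linarith
  have key : ∀ x, ∃ y : E, (∀ k, p k x = 1 → y = P k) ∧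
      (∀ k l, k < l → p k x + p l x = 1 → y = γ k l (p l x)) ∧
      ((∃ k, p k x = 1) ∨ ∃ k l, k < l ∧ p k x + p l x = 1 ∧ 0 < p k x ∧ 0 < p l x) := by
    intro x
    obtain ⟨k, hk⟩ : ∃ k, 0 < p k x := by
      by_contra hcon
      push Not at hcon
      have : ∑ i, p i x ≤ 0 := Finset.sum_nonpos (fun i _ => hcon i)
      rw [hsum x] at this
      linarith
    by_cases hone : p k x = 1
    · have hz : ∀ i, i ≠ k → p i x = 0 := by
        intro i hi
        have := h2 x i k hi
        have := hnn i x
        linarith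
      refine ⟨P k, ?_, ?_, Or.inl ⟨k, hone⟩⟩
      · intro k' hk'
        by_cases hkk : k' = k
        · rw [hkk]
        · rw [hz k' hkk] at hk'
          norm_num at hk'
      · intro k' l' hkl hsum1
        by_cases h4 : k' = k
        · subst h4
          rw [hz l' hkl.ne', hγ0]
        by_cases h5 : l' = k
        · subst h5
          rw [hone, hγ1]
        rw [hz k' h4, hz l' h5] at hsum1
        norm_num at hsum1
    · obtain ⟨l, hlk, hl⟩ : ∃ l, l ≠ k ∧ 0 < p l x := by
        by_contra hcon
        push Not at hcon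
        apply hone
        rw [← hsum x]
        symm
        apply Finset.sum_eq_single_of_mem k (Finset.mem_univ _)
        intro i _ hi
        exact le_antisymm (hcon i hi) (hnn i x)
      have hz : ∀ i, i ≠ k → i ≠ l → p i x = 0 := by
        intro i hik hil
        by_contra hne
        rcases hV2 x i k l (hsupp i x hne) (hsupp k x hk.ne') (hsupp l x hl.ne') with h | h | h
        · exact hik h
        · exact hil h
        · exact hlk h.symm
      have hs : p k x + p l x = 1 := by
        rw [← hsum x, ← Finset.sum_pair (f := fun i => p i x) hlk.symm]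
        apply Finset.sum_subset (Finset.subset_univ _)
        intro i _ hi
        simp only [Finset.mem_insert, Finset.mem_singleton, not_or] at hi
        exact hz i hi.1 hi.2
      -- ordered version
      have ordered : ∀ k l : Fin m, k < l → 0 < p k x → 0 < p l x → p k x + p l x = 1 →
          (∀ i, i ≠ k → i ≠ l → p i x = 0) →
          ∃ y : E, (∀ k, p k x = 1 → y = P k) ∧
            (∀ k l, k < l → p k x + p l x = 1 → y = γ k l (p l x)) ∧
            ((∃ k, p k x = 1) ∨ ∃ k l, k < l ∧ p k x + p l x = 1 ∧ 0 < p k x ∧ 0 < p l x) := by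
        intro k l hkl hk hl hs hz
        refine ⟨γ k l (p l x), ?_, ?_, Or.inr ⟨k, l, hkl, hs, hk, hl⟩⟩
        · intro k' hk'
          exfalso
          by_cases h4 : k' = k
          · subst h4; linarith
          by_cases h5 : k' = l
          · subst h5; linarith
          rw [hz k' h4 h5] at hk'
          norm_num at hk'
        · intro k' l' hkl' hs'
          by_cases h4 : k' = k
          · by_cases h5 : l' = l
            · rw [h4, h5]
            · exfalso
              have : p l' x = 0 := hz l' (by rw [← h4]; exact hkl'.ne') h5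
              rw [this, h4] at hs'
              linarith
          · exfalso
            by_cases h6 : k' = l
            · have h7 : p l' x = 0 := by
                apply hz l'
                · intro h8
                  rw [h6, h8] at hkl'
                  exact absurd hkl' (not_lt.2 hkl.le)
                · rw [← h6]; exact hkl'.ne'
              rw [h7, h6] at hs'
              linarith
            · rw [hz k' h4 h6] at hs'
              by_cases h7 : l' = k
              · rw [h7] at hs'; linarith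
              by_cases h8 : l' = l
              · rw [h8] at hs'; linarith
              rw [hz l' h7 h8] at hs'
              norm_num at hs'
      rcases lt_or_gt_of_ne hlk with h | h
      · exact ordered l k h hl hk (by linarith) (fun i h1 h2 => hz i h2 h1)
      · exact ordered k l h hk hl hs hz
  choose F hF1 hF2 hF3 using key
  have hcont : Continuous F := by
    set A : Fin m ⊕ (Fin m × Fin m) → Set X := fun q =>
      match q with
      | Sum.inl k => {x | p k x = 1}
      | Sum.inr kl => {x | kl.1 < kl.2 ∧ p kl.1 x + p kl.2 x = 1} with hA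
    refine LocallyFinite.continuous (f := A) (locallyFinite_of_finite A) ?_ ?_ ?_
    · refine eq_univ_of_forall fun x => ?_
      rcases hF3 x with ⟨k, hk⟩ | ⟨k, l, hkl, hs, _, _⟩
      · exact mem_iUnion.2 ⟨Sum.inl k, hk⟩
      · exact mem_iUnion.2 ⟨Sum.inr (k, l), hkl, hs⟩
    · rintro (k | ⟨k, l⟩)
      · exact isClosed_eq (p k).continuous continuous_const
      · by_cases hkl : k < l
        · have : A (Sum.inr (k, l)) = {x | p k x + p l x = 1} := by
            ext x; simp [hA, hkl]
          rw [this]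
          exact isClosed_eq ((p k).continuous.add (p l).continuous) continuous_const
        · have : A (Sum.inr (k, l)) = ∅ := by
            ext x; simp only [hA, mem_empty_iff_false, iff_false]
            intro h; exact hkl h.1
          rw [this]
          exact isClosed_empty
    · rintro (k | ⟨k, l⟩)
      · refine (continuousOn_const (c := P k)).congr ?_
        intro x hx
        exact hF1 x k hx
      · refine ((hγ k l).comp (p l).continuous).continuousOn.congr ?_
        intro x hx
        exact hF2 x k l hx.1 hx.2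
  refine ⟨⟨F, hcont⟩, fun x => ?_⟩
  rcases hF3 x with ⟨k, hk⟩ | ⟨k, l, hkl, hs, hk, hl⟩
  · left
    exact ⟨k, hsupp k x (by rw [hk]; norm_num), hF1 x k hk⟩
  · right
    exact ⟨k, l, hsupp k x hk.ne', hsupp l x hl.ne', p l x, hl.le, by linarith,
      hF2 x k l hkl hs⟩

end Pool.Agent.K3h75.OM
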