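import Mathlib

/-!
# Factorizations `u v = c` of a complex number near a given pair, and paths of them
-/

set_option autoImplicit false

namespace Pool.Agent.K3h75.OM

/-- near a pair whose product is close to `c` there is a pair with product `c` -/
theorem exists_factor (α β c : ℂ) (s : ℝ) (hs : 0 < s) (h : ‖α * β - c‖ ≤ s ^ 2) :
    ∃ u v : ℂ, u * v = c ∧ ‖u - α‖ ≤ 3 * s ∧ ‖v - β‖ ≤ 3 * s := by
  by_cases h1 : s ≤ ‖α‖
  · have hα : α ≠ 0 := by
      intro h0; rw [h0, norm_zero] at h1; linarith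
    have hα' : 0 < ‖α‖ := norm_pos_iff.2 hα
    refine ⟨α, c / α, mul_div_cancel₀ c hα, by simp; positivity, ?_⟩
    have e : c / α - β = -(α * β - c) / α := by
      field_simp; ring
    rw [e, norm_div, norm_neg, div_le_iff₀ hα']
    nlinarith
  by_cases h2 : s ≤ ‖β‖
  · have hβ : β ≠ 0 := by
      intro h0; rw [h0, norm_zero] at h2; linarith
    have hβ' : 0 < ‖β‖ := norm_pos_iff.2 hβ
    refine ⟨c / β, β, div_mul_cancel₀ c hβ, ?_, by simp; positivity⟩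
    have e : c / β - α = -(α * β - c) / β := by
      field_simp; ring
    rw [e, norm_div, norm_neg, div_le_iff₀ hβ']
    nlinarith
  push Not at h1 h2
  obtain ⟨u, hu⟩ : ∃ u : ℂ, u ^ 2 = c := IsAlgClosed.exists_pow_nat_eq c (by norm_num)
  have hc : ‖c‖ ≤ 2 * s ^ 2 := by
    have e : c = α * β - (α * β - c) := by ring
    have h3 : ‖α * β‖ ≤ s ^ 2 := by
      rw [norm_mul]
      nlinarith [norm_nonneg α, norm_nonneg β]
    calc ‖c‖ = ‖α * β - (α * β - c)‖ := by rw [← e]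
      _ ≤ ‖α * β‖ + ‖α * β - c‖ := norm_sub_le _ _
      _ ≤ 2 * s ^ 2 := by linarith
  have hu2 : ‖u‖ ≤ 2 * s := by
    have h3 : ‖u‖ ^ 2 ≤ 2 * s ^ 2 := by rw [← norm_pow, hu]; exact hc
    nlinarith [norm_nonneg u]
  refine ⟨u, u, by rw [← hu]; ring, ?_, ?_⟩
  · calc ‖u - α‖ ≤ ‖u‖ + ‖α‖ := norm_sub_le _ _
      _ ≤ 3 * s := by linarith
  · calc ‖u - β‖ ≤ ‖u‖ + ‖β‖ := norm_sub_le _ _
      _ ≤ 3 * s := by linarith

/-- the pairs with product `c` at distance at most `r` from `(α, β)` (in each coordinate) -/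
def Fib (α β c : ℂ) (r : ℝ) : Set (ℂ × ℂ) :=
  {p | p.1 * p.2 = c ∧ ‖p.1 - α‖ ≤ r ∧ ‖p.2 - β‖ ≤ r}

theorem fib_swap {α β c : ℂ} {r : ℝ} {p q : ℂ × ℂ} (h : JoinedIn (Fib β α c r) p.swap q.swap) :
    JoinedIn (Fib α β c r) p q := by
  have h1 := JoinedIn.map_continuousOn (f := Prod.swap) h continuous_swap.continuousOn
  simp only [Prod.swap_swap] at h1
  refine h1.mono ?_
  rintro _ ⟨x, ⟨hx1, hx2, hx3⟩, rfl⟩
  exact ⟨by simpa [mul_comm] using hx1, hx3, hx2⟩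

/-- a path of pairs with product `0` in the first coordinate axis -/
theorem joined_axis {α β : ℂ} {r : ℝ} {u u' : ℂ} (h : (u, (0:ℂ)) ∈ Fib α β 0 r)
    (h' : (u', (0:ℂ)) ∈ Fib α β 0 r) : JoinedIn (Fib α β 0 r) (u, (0:ℂ)) (u', (0:ℂ)) := by
  refine JoinedIn.ofLine (f := fun t : ℝ => ((1 - (t:ℂ)) * u + t * u', (0:ℂ))) ?_ ?_ ?_ ?_
  · exact Continuous.continuousOn (by fun_prop)
  · simp
  · simp
  · rintro _ ⟨t, ⟨ht0, ht1⟩, rfl⟩
    refine ⟨by simp, ?_, h.2.2⟩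
    have e : (1 - (t:ℂ)) * u + t * u' - α = (1 - (t:ℂ)) * (u - α) + t * (u' - α) := by ring
    simp only
    rw [e]
    have h1 : ‖(1 - (t:ℂ))‖ = 1 - t := by
      rw [show (1 - (t:ℂ)) = ((1 - t : ℝ) : ℂ) by push_cast; ring, Complex.norm_real,
        Real.norm_of_nonneg (by linarith)]
    have h2 : ‖(t:ℂ)‖ = t := by rw [Complex.norm_real, Real.norm_of_nonneg ht0]
    calc ‖(1 - (t:ℂ)) * (u - α) + t * (u' - α)‖ ≤ ‖(1 - (t:ℂ)) * (u - α)‖ + ‖(t:ℂ) * (u' - α)‖ :=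
          norm_add_le _ _
      _ = (1 - t) * ‖u - α‖ + t * ‖u' - α‖ := by rw [norm_mul, norm_mul, h1, h2]
      _ ≤ (1 - t) * r + t * r := by
          have := h.2.1
          have := h'.2.1
          gcongr
      _ = r := by ring

/-- paths when the first coordinate stays away from `0` -/
theorem joined_far {α β c : ℂ} {k : ℝ} (hk : 0 < k) (hα : 2 * k < ‖α‖) {p q : ℂ × ℂ}
    (hp : p ∈ Fib α β c k) (hq : q ∈ Fib α β c k) : JoinedIn (Fib α β c (7 * k)) p q := by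
  obtain ⟨u, v⟩ := p
  obtain ⟨u', v'⟩ := q
  obtain ⟨h1, h2, h3⟩ := hp
  obtain ⟨h1', h2', h3'⟩ := hq
  simp only at h1 h2 h3 h1' h2' h3'
  set U : ℝ → ℂ := fun t => (1 - (t:ℂ)) * u + t * u' with hU
  have hnear : ∀ t : ℝ, 0 ≤ t → t ≤ 1 → ‖U t - α‖ ≤ k := by
    intro t ht0 ht1
    have e : (1 - (t:ℂ)) * u + t * u' - α = (1 - (t:ℂ)) * (u - α) + t * (u' - α) := by ring
    simp only [hU]
    rw [e]
    have h1 : ‖(1 - (t:ℂ))‖ = 1 - t := by
      rw [show (1 - (t:ℂ)) = ((1 - t : ℝ) : ℂ) by push_cast; ring, Complex.norm_real,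
        Real.norm_of_nonneg (by linarith)]
    have h2 : ‖(t:ℂ)‖ = t := by rw [Complex.norm_real, Real.norm_of_nonneg ht0]
    calc ‖(1 - (t:ℂ)) * (u - α) + t * (u' - α)‖ ≤ ‖(1 - (t:ℂ)) * (u - α)‖ + ‖(t:ℂ) * (u' - α)‖ :=
          norm_add_le _ _
      _ = (1 - t) * ‖u - α‖ + t * ‖u' - α‖ := by rw [norm_mul, norm_mul, h1, h2]
      _ ≤ (1 - t) * k + t * k := by
          gcongr
      _ = k := by ring
  have hlow : ∀ t : ℝ, 0 ≤ t → t ≤ 1 → ‖α‖ - k ≤ ‖U t‖ := by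
    intro t ht0 ht1
    have := hnear t ht0 ht1
    have h4 : ‖α‖ ≤ ‖U t‖ + ‖U t - α‖ := by
      calc ‖α‖ = ‖U t - (U t - α)‖ := by congr 1; ring
        _ ≤ _ := norm_sub_le _ _
    linarith
  have hne : ∀ t : ℝ, 0 ≤ t → t ≤ 1 → U t ≠ 0 := by
    intro t ht0 ht1 h0
    have := hlow t ht0 ht1
    rw [h0, norm_zero] at this
    linarith
  have hu0 : U 0 = u := by simp [hU]
  have hu1 : U 1 = u' := by simp [hU]
  have hu : u ≠ 0 := by rw [← hu0]; exact hne 0 le_rfl zero_le_one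
  have hu' : u' ≠ 0 := by rw [← hu1]; exact hne 1 zero_le_one le_rfl
  refine JoinedIn.ofLine (f := fun t : ℝ => (U t, c / U t)) ?_ ?_ ?_ ?_
  · have hUc : ContinuousOn U unitInterval := Continuous.continuousOn (by fun_prop)
    refine hUc.prodMk (ContinuousOn.div continuousOn_const hUc ?_)
    intro t ht
    exact hne t ht.1 ht.2
  · simp only [hu0]
    rw [← h1]
    rw [mul_div_cancel_left₀ _ hu]
  · simp only [hu1]
    rw [← h1']
    rw [mul_div_cancel_left₀ _ hu']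
  · rintro _ ⟨t, ⟨ht0, ht1⟩, rfl⟩
    have hUt := hne t ht0 ht1
    refine ⟨mul_div_cancel₀ c hUt, (hnear t ht0 ht1).trans (by linarith), ?_⟩
    simp only
    have e : c / U t - β = (v - β) + t * ((v' - v) * u' / U t) := by
      have h5 : v * (u - u') = (v' - v) * u' := by
        have : u * v = u' * v' := h1.trans h1'.symm
        linear_combination this
      have h6 : c / U t - v = t * ((v' - v) * u' / U t) := by
        rw [← h5]
        field_simp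
        simp only [hU]
        rw [← h1]
        ring
      linear_combination h6
    rw [e]
    have hU' : ‖u'‖ ≤ 3 * ‖U t‖ := by
      have h7 := hlow t ht0 ht1
      have h8 : ‖u'‖ ≤ ‖α‖ + k := by
        calc ‖u'‖ = ‖α + (u' - α)‖ := by congr 1; ring
          _ ≤ ‖α‖ + ‖u' - α‖ := norm_add_le _ _
          _ ≤ _ := by linarith
      linarith
    have hUpos : 0 < ‖U t‖ := norm_pos_iff.2 hUt
    have hvv : ‖v' - v‖ ≤ 2 * k := by
      calc ‖v' - v‖ = ‖(v' - β) - (v - β)‖ := by congr 1; ring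
        _ ≤ ‖v' - β‖ + ‖v - β‖ := norm_sub_le _ _
        _ ≤ _ := by linarith
    have h9 : ‖(t:ℂ) * ((v' - v) * u' / U t)‖ ≤ 6 * k := by
      rw [norm_mul, Complex.norm_real, Real.norm_of_nonneg ht0, norm_div, norm_mul]
      have h10 : ‖v' - v‖ * ‖u'‖ / ‖U t‖ ≤ 6 * k := by
        rw [div_le_iff₀ hUpos]
        calc ‖v' - v‖ * ‖u'‖ ≤ (2 * k) * (3 * ‖U t‖) := by gcongr
          _ = 6 * k * ‖U t‖ := by ring
      have h11 : 0 ≤ ‖v' - v‖ * ‖u'‖ / ‖U t‖ := by positivity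
      nlinarith
    calc ‖(v - β) + t * ((v' - v) * u' / U t)‖ ≤ ‖v - β‖ + ‖(t:ℂ) * ((v' - v) * u' / U t)‖ :=
          norm_add_le _ _
      _ ≤ 7 * k := by linarith

/-- paths near the origin, nonzero product -/
theorem joined_near {α β c : ℂ} {k : ℝ} (hk : 0 < k) (hc : c ≠ 0) (hα : ‖α‖ ≤ 2 * k)
    (hβ : ‖β‖ ≤ 2 * k) {p q : ℂ × ℂ}
    (hp : p ∈ Fib α β c k) (hq : q ∈ Fib α β c k) : JoinedIn (Fib α β c (7 * k)) p q := by
  obtain ⟨u, v⟩ := p
  obtain ⟨u', v'⟩ := q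
  obtain ⟨h1, h2, h3⟩ := hp
  obtain ⟨h1', h2', h3'⟩ := hq
  simp only at h1 h2 h3 h1' h2' h3'
  have hu : u ≠ 0 := by rintro rfl; apply hc; rw [← h1]; ring
  have hv : v ≠ 0 := by rintro rfl; apply hc; rw [← h1]; ring
  have hu' : u' ≠ 0 := by rintro rfl; apply hc; rw [← h1']; ring
  have hv' : v' ≠ 0 := by rintro rfl; apply hc; rw [← h1']; ring
  have hun : ‖u‖ ≤ 3 * k := by
    calc ‖u‖ = ‖(u - α) + α‖ := by congr 1; ring
      _ ≤ ‖u - α‖ + ‖α‖ := norm_add_le _ _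
      _ ≤ _ := by linarith
  have hvn : ‖v‖ ≤ 3 * k := by
    calc ‖v‖ = ‖(v - β) + β‖ := by congr 1; ring
      _ ≤ ‖v - β‖ + ‖β‖ := norm_add_le _ _
      _ ≤ _ := by linarith
  have hun' : ‖u'‖ ≤ 3 * k := by
    calc ‖u'‖ = ‖(u' - α) + α‖ := by congr 1; ring
      _ ≤ ‖u' - α‖ + ‖α‖ := norm_add_le _ _
      _ ≤ _ := by linarith
  have hvn' : ‖v'‖ ≤ 3 * k := by
    calc ‖v'‖ = ‖(v' - β) + β‖ := by congr 1; ring
      _ ≤ ‖v' - β‖ + ‖β‖ := norm_add_le _ _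
      _ ≤ _ := by linarith
  set w : ℂ := Complex.log (u' / u) with hw
  have hexp : Complex.exp w = u' / u := Complex.exp_log (div_ne_zero hu' hu)
  -- general bound
  have key : ∀ (a b : ℂ) (z : ℂ), a ≠ 0 → Complex.exp z = b / a → ‖a‖ ≤ 3 * k → ‖b‖ ≤ 3 * k →
      ∀ t : ℝ, 0 ≤ t → t ≤ 1 → ‖a * Complex.exp (t * z)‖ ≤ 3 * k := by
    intro a b z ha hz hak hbk t ht0 ht1
    have ha0 : 0 < ‖a‖ := norm_pos_iff.2 ha
    rw [norm_mul, Complex.norm_exp]
    have h5 : Real.exp z.re = ‖b‖ / ‖a‖ := by rw [← Complex.norm_exp, hz, norm_div]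
    have h6 : ((t:ℂ) * z).re = t * z.re := by simp
    rw [h6]
    rcases le_total 0 z.re with h7 | h7
    · have h8 : Real.exp (t * z.re) ≤ Real.exp z.re := Real.exp_le_exp.2 (by nlinarith)
      calc ‖a‖ * Real.exp (t * z.re) ≤ ‖a‖ * Real.exp z.re := by gcongr
        _ = ‖b‖ := by rw [h5]; field_simp
        _ ≤ _ := hbk
    · have h8 : Real.exp (t * z.re) ≤ 1 := Real.exp_le_one_iff.2 (by nlinarith)
      calc ‖a‖ * Real.exp (t * z.re) ≤ ‖a‖ * 1 := by gcongr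
        _ ≤ _ := by linarith
  refine JoinedIn.ofLine (f := fun t : ℝ => (u * Complex.exp (t * w), v * Complex.exp (t * (-w))))
    ?_ ?_ ?_ ?_
  · exact Continuous.continuousOn (by fun_prop)
  · simp
  · simp only [Complex.ofReal_one, one_mul, Prod.mk.injEq]
    rw [Complex.exp_neg, hexp]
    constructor
    · field_simp
    · have : u * v = u' * v' := h1.trans h1'.symm
      field_simp
      linear_combination this
  · rintro _ ⟨t, ⟨ht0, ht1⟩, rfl⟩
    have hexp' : Complex.exp (-w) = v' / v := by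
      rw [Complex.exp_neg, hexp]
      have : u * v = u' * v' := h1.trans h1'.symm
      field_simp
      linear_combination this
    have k1 := key u u' w hu hexp hun hun' t ht0 ht1
    have k2 := key v v' (-w) hv hexp' hvn hvn' t ht0 ht1
    refine ⟨?_, ?_, ?_⟩
    · simp only
      have : u * Complex.exp (t * w) * (v * Complex.exp (t * -w)) =
        u * v * (Complex.exp (t * w) * Complex.exp (t * -w)) := by ring
      rw [this, ← Complex.exp_add]
      simp [h1]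
    · simp only
      calc ‖u * Complex.exp (t * w) - α‖ ≤ ‖u * Complex.exp (t * w)‖ + ‖α‖ := norm_sub_le _ _
        _ ≤ 7 * k := by linarith
    · simp only
      calc ‖v * Complex.exp (t * (-w)) - β‖ ≤ ‖v * Complex.exp (t * (-w))‖ + ‖β‖ := norm_sub_le _ _
        _ ≤ 7 * k := by linarith

theorem joined_zero {α β : ℂ} {k : ℝ} {p q : ℂ × ℂ}
    (hp : p ∈ Fib α β 0 k) (hq : q ∈ Fib α β 0 k) : JoinedIn (Fib α β 0 k) p q := by
  obtain ⟨u, v⟩ := p
  obtain ⟨u', v'⟩ := q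
  -- the mixed case
  have mixed : ∀ {α β : ℂ} {u v' : ℂ}, (u, (0:ℂ)) ∈ Fib α β 0 k → ((0:ℂ), v') ∈ Fib α β 0 k →
      JoinedIn (Fib α β 0 k) (u, (0:ℂ)) ((0:ℂ), v') := by
    intro α β u v' h h'
    have h0 : ((0:ℂ), (0:ℂ)) ∈ Fib α β 0 k := ⟨by simp, h'.2.1, h.2.2⟩
    refine (joined_axis h h0).trans ?_
    apply fib_swap
    refine joined_axis (α := β) (β := α) ?_ ?_
    · exact ⟨by simp, h0.2.2, h0.2.1⟩
    · exact ⟨by simp, h'.2.2, h'.2.1⟩
  have h1 : u * v = 0 := hp.1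
  have h1' : u' * v' = 0 := hq.1
  rcases mul_eq_zero.1 h1 with rfl | rfl <;> rcases mul_eq_zero.1 h1' with rfl | rfl
  · apply fib_swap
    exact joined_axis (α := β) (β := α) ⟨by simp, hp.2.2, hp.2.1⟩ ⟨by simp, hq.2.2, hq.2.1⟩
  · exact (mixed hq hp).symm
  · exact mixed hp hq
  · exact joined_axis hp hq

/-- any two factorizations of `c` near `(α, β)` are joined by a path of factorizations of `c` near
`(α, β)` -/
theorem joined_fib {α β c : ℂ} {k : ℝ} (hk : 0 < k) {p q : ℂ × ℂ}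
    (hp : p ∈ Fib α β c k) (hq : q ∈ Fib α β c k) : JoinedIn (Fib α β c (7 * k)) p q := by
  by_cases hc : c = 0
  · subst hc
    refine (joined_zero hp hq).mono ?_
    rintro x ⟨h1, h2, h3⟩
    exact ⟨h1, by linarith, by linarith⟩
  by_cases hα : 2 * k < ‖α‖
  · exact joined_far hk hα hp hq
  by_cases hβ : 2 * k < ‖β‖
  · apply fib_swap
    refine joined_far hk hβ ?_ ?_
    · exact ⟨by rw [← hp.1]; exact mul_comm _ _, hp.2.2, hp.2.1⟩
    · exact ⟨by rw [← hq.1]; exact mul_comm _ _, hq.2.2, hq.2.1⟩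
  exact joined_near hk hc (not_lt.1 hα) (not_lt.1 hβ) hp hq

end Pool.Agent.K3h75.OM
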