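import Mathlib
import Pool.Agent.K3h75.OM.Plane
import Pool.Agent.K3h75.OM.Nerve

/-!
# Multiplication in `C(X)` is uniformly open for compact Hausdorff spaces of dimension at most one
-/

set_option autoImplicit false

open Set Topology

namespace Pool.Agent.K3h75.OM

variable {X : Type*} [TopologicalSpace X]

theorem norm_path {u v u' v' c : ℂ} {σ B t : ℝ} (h : u' * v' = c) (h1 : ‖u' - u‖ ≤ 3 * σ)
    (h2 : ‖v' - v‖ ≤ 3 * σ) (hu' : ‖u'‖ ≤ B) (hv : ‖v‖ ≤ B) (hv' : ‖v'‖ ≤ B)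
    (ht0 : 0 ≤ t) (ht1 : t ≤ 1) (hσ : 0 ≤ σ) :
    ‖((1 - (t:ℂ)) * u' + t * u) * ((1 - (t:ℂ)) * v' + t * v) - c‖ ≤ 6 * σ * B := by
  have hB : 0 ≤ B := (norm_nonneg _).trans hu'
  have e1 : ‖(1 - (t:ℂ))‖ = 1 - t := by
    rw [show (1 - (t:ℂ)) = ((1 - t : ℝ) : ℂ) by push_cast; ring, Complex.norm_real,
      Real.norm_of_nonneg (by linarith)]
  have e2 : ‖(t:ℂ)‖ = t := by rw [Complex.norm_real, Real.norm_of_nonneg ht0]
  have hvt : ‖(1 - (t:ℂ)) * v' + t * v‖ ≤ B := by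
    calc ‖(1 - (t:ℂ)) * v' + t * v‖ ≤ ‖(1 - (t:ℂ)) * v'‖ + ‖(t:ℂ) * v‖ := norm_add_le _ _
      _ = (1 - t) * ‖v'‖ + t * ‖v‖ := by rw [norm_mul, norm_mul, e1, e2]
      _ ≤ (1 - t) * B + t * B := by gcongr
      _ = B := by ring
  have e : ((1 - (t:ℂ)) * u' + t * u) * ((1 - (t:ℂ)) * v' + t * v) - c =
      (t * (u - u')) * ((1 - (t:ℂ)) * v' + t * v) + u' * (t * (v - v')) := by
    rw [← h]; ring
  rw [e]
  have h1' : ‖u - u'‖ ≤ 3 * σ := by rw [norm_sub_rev]; exact h1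
  have h2' : ‖v - v'‖ ≤ 3 * σ := by rw [norm_sub_rev]; exact h2
  have k1 : ‖(t:ℂ) * (u - u')‖ ≤ 3 * σ := by
    rw [norm_mul, e2]
    calc t * ‖u - u'‖ ≤ 1 * (3 * σ) := by gcongr
      _ = 3 * σ := one_mul _
  have k2 : ‖(t:ℂ) * (v - v')‖ ≤ 3 * σ := by
    rw [norm_mul, e2]
    calc t * ‖v - v'‖ ≤ 1 * (3 * σ) := by gcongr
      _ = 3 * σ := one_mul _
  calc ‖(t * (u - u')) * ((1 - (t:ℂ)) * v' + t * v) + u' * (t * (v - v'))‖
      ≤ ‖((t:ℂ) * (u - u')) * ((1 - (t:ℂ)) * v' + t * v)‖ + ‖u' * (t * (v - v'))‖ :=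
        norm_add_le _ _
    _ = ‖(t:ℂ) * (u - u')‖ * ‖(1 - (t:ℂ)) * v' + t * v‖ + ‖u'‖ * ‖(t:ℂ) * (v - v')‖ := by
        rw [norm_mul ((t:ℂ) * (u - u')), norm_mul u']
    _ ≤ (3 * σ) * B + B * (3 * σ) := by gcongr
    _ = 6 * σ * B := by ring

/-- the approximation step -/
theorem step [CompactSpace X] [T2Space X] (hX : CoveringDimLE X 1) (a b h : C(X, ℂ)) {s r : ℝ}
    (hs : 0 < s) (hr : 0 < r) (hab : ∀ x, ‖a x * b x - h x‖ ≤ s ^ 2) :
    ∃ a' b' : C(X, ℂ), (∀ x, ‖a' x * b' x - h x‖ ≤ r ^ 2) ∧ (∀ x, ‖a' x - a x‖ ≤ 30 * s) ∧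
      ∀ x, ‖b' x - b x‖ ≤ 30 * s := by
  set M : ℝ := max ‖a‖ ‖b‖ with hM
  have hM0 : 0 ≤ M := le_max_of_le_left (norm_nonneg _)
  have haM : ∀ x, ‖a x‖ ≤ M := fun x => (a.norm_coe_le_norm x).trans (le_max_left _ _)
  have hbM : ∀ x, ‖b x‖ ≤ M := fun x => (b.norm_coe_le_norm x).trans (le_max_right _ _)
  set B : ℝ := M + 8 * s with hB
  have hB0 : 0 < B := by positivity
  set σ : ℝ := min (s / 8) (r ^ 2 / (12 * B)) with hσ
  have hσ0 : 0 < σ := lt_min (by positivity) (by positivity)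
  have hσ1 : σ ≤ s / 8 := min_le_left _ _
  have hσ2 : 6 * σ * B ≤ r ^ 2 / 2 := by
    have : σ ≤ r ^ 2 / (12 * B) := min_le_right _ _
    rw [le_div_iff₀ (by positivity)] at this
    linarith
  set e : ℝ := min (min (σ ^ 2 / 2) (r ^ 2 / 2)) (s / 8) with he
  have he0 : 0 < e := lt_min (lt_min (by positivity) (by positivity)) (by positivity)
  have he1 : e ≤ σ ^ 2 / 2 := (min_le_left _ _).trans (min_le_left _ _)
  have he2 : e ≤ r ^ 2 / 2 := (min_le_left _ _).trans (min_le_right _ _)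
  have he3 : e ≤ s / 8 := min_le_right _ _
  obtain ⟨m, V, hVo, hVne, hVc, hVd, hV2⟩ := exists_fine hX (fun x => (a x, b x, h x))
    (by fun_prop) he0
  have hVa : ∀ i, ∀ x ∈ V i, ∀ y ∈ V i, ‖a x - a y‖ ≤ e := by
    intro i x hx y hy
    have := hVd i x hx y hy
    rw [Prod.dist_eq, max_lt_iff] at this
    rw [← dist_eq_norm]
    exact this.1.le
  have hVb : ∀ i, ∀ x ∈ V i, ∀ y ∈ V i, ‖b x - b y‖ ≤ e := by
    intro i x hx y hy
    have := hVd i x hx y hy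
    rw [Prod.dist_eq, max_lt_iff, Prod.dist_eq, max_lt_iff] at this
    rw [← dist_eq_norm]
    exact this.2.1.le
  have hVh : ∀ i, ∀ x ∈ V i, ∀ y ∈ V i, ‖h x - h y‖ ≤ e := by
    intro i x hx y hy
    have := hVd i x hx y hy
    rw [Prod.dist_eq, max_lt_iff, Prod.dist_eq, max_lt_iff] at this
    rw [← dist_eq_norm]
    exact this.2.2.le
  choose z hz using hVne
  have hP : ∀ i, ∃ p : ℂ × ℂ, p ∈ Fib (a (z i)) (b (z i)) (h (z i)) (3 * s) := by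
    intro i
    obtain ⟨u, v, h1, h2, h3⟩ := exists_factor (a (z i)) (b (z i)) (h (z i)) s hs (hab (z i))
    exact ⟨(u, v), h1, h2, h3⟩
  choose P hP using hP
  -- the regions
  set G : Fin m → Set (ℂ × ℂ) := fun k => {p | ‖p.1 * p.2 - h (z k)‖ ≤ r ^ 2 / 2 ∧
    ‖p.1 - a (z k)‖ ≤ 28 * s ∧ ‖p.2 - b (z k)‖ ≤ 28 * s} with hG
  have hjoin : ∀ k l, (V k ∩ V l).Nonempty → JoinedIn (G k) (P k) (P l) := by
    rintro k l ⟨y, hyk, hyl⟩
    have d1 : ‖a (z l) - a (z k)‖ ≤ 2 * e := by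
      calc ‖a (z l) - a (z k)‖ = ‖(a (z l) - a y) + (a y - a (z k))‖ := by congr 1; ring
        _ ≤ ‖a (z l) - a y‖ + ‖a y - a (z k)‖ := norm_add_le _ _
        _ ≤ e + e := add_le_add (hVa l _ (hz l) _ hyl) (hVa k _ hyk _ (hz k))
        _ = 2 * e := by ring
    have d2 : ‖b (z l) - b (z k)‖ ≤ 2 * e := by
      calc ‖b (z l) - b (z k)‖ = ‖(b (z l) - b y) + (b y - b (z k))‖ := by congr 1; ring
        _ ≤ ‖b (z l) - b y‖ + ‖b y - b (z k)‖ := norm_add_le _ _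
        _ ≤ e + e := add_le_add (hVb l _ (hz l) _ hyl) (hVb k _ hyk _ (hz k))
        _ = 2 * e := by ring
    have d3 : ‖h (z l) - h (z k)‖ ≤ 2 * e := by
      calc ‖h (z l) - h (z k)‖ = ‖(h (z l) - h y) + (h y - h (z k))‖ := by congr 1; ring
        _ ≤ ‖h (z l) - h y‖ + ‖h y - h (z k)‖ := norm_add_le _ _
        _ ≤ e + e := add_le_add (hVh l _ (hz l) _ hyl) (hVh k _ hyk _ (hz k))
        _ = 2 * e := by ring
    obtain ⟨hl1, hl2, hl3⟩ := hP l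
    obtain ⟨u', v', q1, q2, q3⟩ := exists_factor (P l).1 (P l).2 (h (z k)) σ hσ0
      (by rw [hl1]; linarith)
    have n1 : ‖u' - a (z k)‖ ≤ 4 * s := by
      calc ‖u' - a (z k)‖ = ‖(u' - (P l).1) + ((P l).1 - a (z l)) + (a (z l) - a (z k))‖ := by
            congr 1; ring
        _ ≤ ‖u' - (P l).1‖ + ‖(P l).1 - a (z l)‖ + ‖a (z l) - a (z k)‖ := norm_add₃_le
        _ ≤ 4 * s := by linarith
    have n2 : ‖v' - b (z k)‖ ≤ 4 * s := by
      calc ‖v' - b (z k)‖ = ‖(v' - (P l).2) + ((P l).2 - b (z l)) + (b (z l) - b (z k))‖ := by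
            congr 1; ring
        _ ≤ ‖v' - (P l).2‖ + ‖(P l).2 - b (z l)‖ + ‖b (z l) - b (z k)‖ := norm_add₃_le
        _ ≤ 4 * s := by linarith
    have n3 : ‖(P l).1 - a (z k)‖ ≤ 4 * s := by
      calc ‖(P l).1 - a (z k)‖ = ‖((P l).1 - a (z l)) + (a (z l) - a (z k))‖ := by
            congr 1; ring
        _ ≤ ‖(P l).1 - a (z l)‖ + ‖a (z l) - a (z k)‖ := norm_add_le _ _
        _ ≤ 4 * s := by linarith
    have n4 : ‖(P l).2 - b (z k)‖ ≤ 4 * s := by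
      calc ‖(P l).2 - b (z k)‖ = ‖((P l).2 - b (z l)) + (b (z l) - b (z k))‖ := by
            congr 1; ring
        _ ≤ ‖(P l).2 - b (z l)‖ + ‖b (z l) - b (z k)‖ := norm_add_le _ _
        _ ≤ 4 * s := by linarith
    have j1 : JoinedIn (G k) (P k) (u', v') := by
      have hk4 : P k ∈ Fib (a (z k)) (b (z k)) (h (z k)) (4 * s) := by
        obtain ⟨hk1, hk2, hk3⟩ := hP k
        exact ⟨hk1, by linarith, by linarith⟩
      refine (joined_fib (by positivity) hk4 (q := (u', v')) ⟨q1, n1, n2⟩).mono ?_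
      rintro p ⟨p1, p2, p3⟩
      refine ⟨?_, by linarith, by linarith⟩
      rw [p1, sub_self, norm_zero]
      positivity
    refine j1.trans ?_
    refine JoinedIn.ofLine (f := fun t : ℝ => ((1 - (t:ℂ)) * u' + t * (P l).1,
      (1 - (t:ℂ)) * v' + t * (P l).2)) ?_ ?_ ?_ ?_
    · exact Continuous.continuousOn (by fun_prop)
    · simp
    · simp
    · rintro _ ⟨t, ⟨ht0, ht1⟩, rfl⟩
      have bnd : ∀ {w α : ℂ}, ‖w - α‖ ≤ 4 * s → ‖α‖ ≤ M → ‖w‖ ≤ B := by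
        intro w α h1 h2
        calc ‖w‖ = ‖(w - α) + α‖ := by congr 1; ring
          _ ≤ ‖w - α‖ + ‖α‖ := norm_add_le _ _
          _ ≤ B := by rw [hB]; linarith
      have cvx : ∀ {w w' α : ℂ}, ‖w - α‖ ≤ 4 * s → ‖w' - α‖ ≤ 4 * s →
          ‖(1 - (t:ℂ)) * w + t * w' - α‖ ≤ 28 * s := by
        intro w w' α h1 h2
        have e1 : ‖(1 - (t:ℂ))‖ = 1 - t := by
          rw [show (1 - (t:ℂ)) = ((1 - t : ℝ) : ℂ) by push_cast; ring, Complex.norm_real,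
            Real.norm_of_nonneg (by linarith)]
        have e2 : ‖(t:ℂ)‖ = t := by rw [Complex.norm_real, Real.norm_of_nonneg ht0]
        have e3 : (1 - (t:ℂ)) * w + t * w' - α = (1 - (t:ℂ)) * (w - α) + t * (w' - α) := by ring
        rw [e3]
        calc ‖(1 - (t:ℂ)) * (w - α) + t * (w' - α)‖
            ≤ ‖(1 - (t:ℂ)) * (w - α)‖ + ‖(t:ℂ) * (w' - α)‖ := norm_add_le _ _
          _ = (1 - t) * ‖w - α‖ + t * ‖w' - α‖ := by rw [norm_mul, norm_mul, e1, e2]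
          _ ≤ (1 - t) * (4 * s) + t * (4 * s) := by gcongr
          _ ≤ 28 * s := by linarith
      refine ⟨?_, cvx n1 n3, cvx n2 n4⟩
      exact (norm_path q1 q2 q3 (bnd n1 (haM _)) (bnd n4 (hbM _)) (bnd n2 (hbM _)) ht0 ht1
        hσ0.le).trans hσ2
  have hγ : ∀ k l, ∃ γ : ℝ → ℂ × ℂ, Continuous γ ∧ γ 0 = P k ∧ γ 1 = P l ∧
      ((V k ∩ V l).Nonempty → ∀ t, 0 ≤ t → t ≤ 1 → γ t ∈ G k) := by
    intro k l
    by_cases hne : (V k ∩ V l).Nonempty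
    · obtain ⟨γ, hγ⟩ := hjoin k l hne
      refine ⟨γ.extend, γ.continuous_extend, γ.extend_zero, γ.extend_one, fun _ t ht0 ht1 => ?_⟩
      rw [Path.extend_apply γ ⟨ht0, ht1⟩]
      exact hγ _
    · refine ⟨fun t => (1 - t) • P k + t • P l, by fun_prop, by simp, by simp,
        fun h => absurd h hne⟩
  choose γ hγc hγ0 hγ1 hγG using hγ
  obtain ⟨F, hF⟩ := exists_map V hVo hVc hV2 P γ hγc hγ0 hγ1
  have hPG : ∀ k, P k ∈ G k := by
    intro k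
    obtain ⟨h1, h2, h3⟩ := hP k
    refine ⟨?_, by linarith, by linarith⟩
    rw [h1, sub_self, norm_zero]
    positivity
  have hFG : ∀ x, ∃ k, x ∈ V k ∧ F x ∈ G k := by
    intro x
    rcases hF x with ⟨k, hk, hk'⟩ | ⟨k, l, hk, hl, t, ht0, ht1, ht⟩
    · exact ⟨k, hk, by rw [hk']; exact hPG k⟩
    · exact ⟨k, hk, by rw [ht]; exact hγG k l ⟨x, hk, hl⟩ t ht0 ht1⟩
  refine ⟨⟨fun x => (F x).1, by fun_prop⟩, ⟨fun x => (F x).2, by fun_prop⟩, ?_, ?_, ?_⟩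
  · intro x
    obtain ⟨k, hk, h1, h2, h3⟩ := hFG x
    simp only [ContinuousMap.coe_mk]
    calc ‖(F x).1 * (F x).2 - h x‖ = ‖((F x).1 * (F x).2 - h (z k)) + (h (z k) - h x)‖ := by
          congr 1; ring
      _ ≤ ‖(F x).1 * (F x).2 - h (z k)‖ + ‖h (z k) - h x‖ := norm_add_le _ _
      _ ≤ r ^ 2 := by linarith [hVh k _ (hz k) _ hk]
  · intro x
    obtain ⟨k, hk, h1, h2, h3⟩ := hFG x
    simp only [ContinuousMap.coe_mk]
    calc ‖(F x).1 - a x‖ = ‖((F x).1 - a (z k)) + (a (z k) - a x)‖ := by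
          congr 1; ring
      _ ≤ ‖(F x).1 - a (z k)‖ + ‖a (z k) - a x‖ := norm_add_le _ _
      _ ≤ 30 * s := by linarith [hVa k _ (hz k) _ hk]
  · intro x
    obtain ⟨k, hk, h1, h2, h3⟩ := hFG x
    simp only [ContinuousMap.coe_mk]
    calc ‖(F x).2 - b x‖ = ‖((F x).2 - b (z k)) + (b (z k) - b x)‖ := by
          congr 1; ring
      _ ≤ ‖(F x).2 - b (z k)‖ + ‖b (z k) - b x‖ := norm_add_le _ _
      _ ≤ 30 * s := by linarith [hVb k _ (hz k) _ hk]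

/-- the exact factorization -/
theorem exact_factor [CompactSpace X] [T2Space X] (hX : CoveringDimLE X 1) (a b h : C(X, ℂ))
    {s : ℝ} (hs : 0 < s) (hab : ∀ x, ‖a x * b x - h x‖ ≤ s ^ 2) :
    ∃ a' b' : C(X, ℂ), a' * b' = h ∧ ‖a' - a‖ ≤ 60 * s ∧ ‖b' - b‖ ≤ 60 * s := by
  -- the sequence
  have hstep : ∀ (n : ℕ) (p : C(X, ℂ) × C(X, ℂ)), ∃ q : C(X, ℂ) × C(X, ℂ),
      (∀ x, ‖p.1 x * p.2 x - h x‖ ≤ (s / 2 ^ n) ^ 2) →
        (∀ x, ‖q.1 x * q.2 x - h x‖ ≤ (s / 2 ^ (n + 1)) ^ 2) ∧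
        ‖q.1 - p.1‖ ≤ 30 * (s / 2 ^ n) ∧ ‖q.2 - p.2‖ ≤ 30 * (s / 2 ^ n) := by
    intro n p
    by_cases hp : ∀ x, ‖p.1 x * p.2 x - h x‖ ≤ (s / 2 ^ n) ^ 2
    · obtain ⟨a', b', h1, h2, h3⟩ := step hX p.1 p.2 h (s := s / 2 ^ n) (r := s / 2 ^ (n + 1))
        (by positivity) (by positivity) hp
      refine ⟨(a', b'), fun _ => ⟨h1, ?_, ?_⟩⟩
      · rw [ContinuousMap.norm_le _ (by positivity)]
        intro x; exact h2 x
      · rw [ContinuousMap.norm_le _ (by positivity)]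
        intro x; exact h3 x
    · exact ⟨p, fun h => absurd h hp⟩
  choose nx hnx using hstep
  set q : ℕ → C(X, ℂ) × C(X, ℂ) := fun n => Nat.rec (a, b) (fun n p => nx n p) n with hq
  have hq0 : q 0 = (a, b) := rfl
  have hqs : ∀ n, q (n + 1) = nx n (q n) := fun n => rfl
  have hgood : ∀ n, ∀ x, ‖(q n).1 x * (q n).2 x - h x‖ ≤ (s / 2 ^ n) ^ 2 := by
    intro n
    induction n with
    | zero => simpa [hq0] using hab
    | succ n ih => rw [hqs]; exact (hnx n (q n) ih).1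
  have hd1 : ∀ n, dist (q n).1 (q (n + 1)).1 ≤ (60 * s) / 2 / 2 ^ n := by
    intro n
    rw [dist_comm, dist_eq_norm, hqs]
    refine (hnx n (q n) (hgood n)).2.1.trans (le_of_eq ?_)
    ring
  have hd2 : ∀ n, dist (q n).2 (q (n + 1)).2 ≤ (60 * s) / 2 / 2 ^ n := by
    intro n
    rw [dist_comm, dist_eq_norm, hqs]
    refine (hnx n (q n) (hgood n)).2.2.trans (le_of_eq ?_)
    ring
  obtain ⟨a', ha'⟩ := cauchySeq_tendsto_of_complete (cauchySeq_of_le_geometric_two hd1)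
  obtain ⟨b', hb'⟩ := cauchySeq_tendsto_of_complete (cauchySeq_of_le_geometric_two hd2)
  refine ⟨a', b', ?_, ?_, ?_⟩
  · have hmul : Filter.Tendsto (fun n => (q n).1 * (q n).2) Filter.atTop (𝓝 (a' * b')) :=
      ha'.mul hb'
    have hh : Filter.Tendsto (fun n => (q n).1 * (q n).2) Filter.atTop (𝓝 h) := by
      rw [tendsto_iff_norm_sub_tendsto_zero]
      have hz : Filter.Tendsto (fun n : ℕ => (s / 2 ^ n) ^ 2) Filter.atTop (𝓝 0) := by
        have h1 : Filter.Tendsto (fun n : ℕ => s * (1 / 2 : ℝ) ^ n) Filter.atTop (𝓝 (s * 0)) :=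
          (tendsto_pow_atTop_nhds_zero_of_lt_one (by norm_num) (by norm_num)).const_mul s
        have h2 := h1.pow 2
        simp only [mul_zero, ne_eq, OfNat.ofNat_ne_zero, not_false_eq_true, zero_pow] at h2
        refine h2.congr fun n => ?_
        rw [one_div, inv_pow, div_eq_mul_inv]
      refine squeeze_zero (fun n => norm_nonneg _) (fun n => ?_) hz
      rw [ContinuousMap.norm_le _ (by positivity)]
      intro x
      exact hgood n x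
    exact tendsto_nhds_unique hmul hh
  · have := dist_le_of_le_geometric_two_of_tendsto₀ hd1 ha'
    rw [dist_comm, dist_eq_norm] at this
    exact this
  · have := dist_le_of_le_geometric_two_of_tendsto₀ hd2 hb'
    rw [dist_comm, dist_eq_norm] at this
    exact this

end Pool.Agent.K3h75.OM
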